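import Pool.Agent.Lib.MP_bb37eb_nt.SCH.Defs
import Pool.Agent.Lib.MP_bb37eb_nt.BR.Final
import Pool.Agent.Lib.MP_bb37eb_nt.BR.AzuBase

/-! Brauer classes of fields and classes in `H2`. -/

namespace BB37

open scoped TensorProduct

section

variable {K : Type} [Field K]

theorem IsClassOf.of_algEquiv {x : BrauerGroup.{0, 0} K} {A A' : Type} [Ring A] [Algebra K A]
    [Ring A'] [Algebra K A'] (h : IsClassOf K A x) (e : A ≃ₐ[K] A') : IsClassOf K A' x := by
  obtain ⟨B, hB, ⟨f⟩⟩ := h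
  exact ⟨B, hB, ⟨e.symm.trans f⟩⟩

variable [CharZero K]

variable (K) in
/-- the class in `H2` of a Brauer class -/
noncomputable def h2 : BrauerGroup.{0, 0} K → H2 K := (exists_brauer_H2 K).choose

variable (K) in
theorem h2_bijective : Function.Bijective (h2 K) := (exists_brauer_H2 K).choose_spec.1

theorem h2_eq {x : BrauerGroup.{0, 0} K} {A : Type} [Ring A] [Algebra K A]
    (hx : IsClassOf K A x) {c : Z2 K} (hc : HasClass K A c) : h2 K x = cls c := by
  obtain ⟨B, rfl, ⟨f⟩⟩ := hx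
  exact (exists_brauer_H2 K).choose_spec.2 B c (HasClass.of_algEquiv K f hc)

theorem IsClassOf.hasClass {x : BrauerGroup.{0, 0} K} {A : Type} [Ring A] [Algebra K A]
    (hx : IsClassOf K A x) : ∃ c : Z2 K, HasClass K A c ∧ h2 K x = cls c := by
  have hx' := hx
  obtain ⟨B, -, ⟨f⟩⟩ := hx'
  obtain ⟨c, hc⟩ := BR_exists_class K B
  have h := HasClass.of_algEquiv K f.symm hc
  exact ⟨c, h, h2_eq hx h⟩

theorem isClassOf_of_hasClass {A : Type} [Ring A] [Algebra K A] [Algebra.IsCentral K A]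
    [IsSimpleRing A] [FiniteDimensional K A] {c : Z2 K} (hc : HasClass K A c)
    {x : BrauerGroup.{0, 0} K} (h : h2 K x = cls c) : IsClassOf K A x := by
  let B : CSA.{0, 0} K := { AlgCat.of K A with }
  have hB : HasClass K B c := hc
  refine ⟨B, ?_, ⟨AlgEquiv.refl⟩⟩
  apply (h2_bijective K).1
  rw [h]
  exact ((exists_brauer_H2 K).choose_spec.2 B c hB).symm

theorem IsClassOf.unique {x y : BrauerGroup.{0, 0} K} {A : Type} [Ring A] [Algebra K A]
    (hx : IsClassOf K A x) (hy : IsClassOf K A y) : x = y := by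
  obtain ⟨c, hc, h⟩ := hx.hasClass
  apply (h2_bijective K).1
  rw [h, h2_eq hy hc]

/-- base change of classes -/
theorem h2_baseChange {K' : Type} [Field K'] [CharZero K'] [Algebra K K']
    {x : BrauerGroup.{0, 0} K} {x' : BrauerGroup.{0, 0} K'} {A : Type} [Ring A] [Algebra K A]
    (hx : IsClassOf K A x) (hx' : IsClassOf K' (K' ⊗[K] A) x') :
    h2 K' x' = res K K' (h2 K x) := by
  obtain ⟨B, -, ⟨f⟩⟩ := id hx
  obtain ⟨c, hc, h⟩ := hx.hasClass
  have hB : HasClass K B c := HasClass.of_algEquiv K f hc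
  have h1 := BR_baseChange K K' B c hB
  have e : K' ⊗[K] B ≃ₐ[K'] K' ⊗[K] A := Algebra.TensorProduct.congr AlgEquiv.refl f.symm
  have h3 := h2_eq hx' (HasClass.of_algEquiv K' e h1)
  rw [h3, h, res_cls]

/-- a base change of a central simple algebra has the restricted class -/
theorem isClassOf_baseChange {K' : Type} [Field K'] [CharZero K'] [Algebra K K']
    {x : BrauerGroup.{0, 0} K} {x' : BrauerGroup.{0, 0} K'} (C : CSA.{0, 0} K)
    (hx : IsClassOf K C x) (h : h2 K' x' = res K K' (h2 K x)) :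
    IsClassOf K' (K' ⊗[K] C) x' := by
  obtain ⟨c, hc, e⟩ := hx.hasClass
  obtain ⟨i1, i2, i3⟩ := BR_baseChange_csa K K' C
  refine isClassOf_of_hasClass (BR_baseChange K K' C c hc) ?_
  rw [h, e, res_cls]

variable (K) in
/-- the Brauer class with a given class in `H2` -/
noncomputable def brOf (x : H2 K) : BrauerGroup.{0, 0} K :=
  ((h2_bijective K).2 x).choose

theorem h2_brOf (x : H2 K) : h2 K (brOf K x) = x := ((h2_bijective K).2 x).choose_spec

end

/-- a family of local Brauer classes which comes from the rational numbers -/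
theorem exists_h2_of_glob {m : ∀ v : Place, BrauerGroup.{0, 0} (Kv v)}
    (h : ∃ B : CSA.{0, 0} ℚ, ∀ v, IsClassOf (Kv v) (Kv v ⊗[ℚ] B) (m v)) :
    ∃ γ : H2 ℚ, ∀ v, res ℚ (Kv v) γ = h2 (Kv v) (m v) := by
  obtain ⟨β, hβ⟩ := h
  refine ⟨h2 ℚ (Quotient.mk (Brauer.CSA_Setoid ℚ) β), fun v => ?_⟩
  exact (h2_baseChange ⟨β, rfl, ⟨AlgEquiv.refl⟩⟩ (hβ v)).symm

/-- the converse -/
theorem exists_glob_of_h2 {m : ∀ v : Place, BrauerGroup.{0, 0} (Kv v)}
    (h : ∃ γ : H2 ℚ, ∀ v, res ℚ (Kv v) γ = h2 (Kv v) (m v)) :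
    ∃ B : CSA.{0, 0} ℚ, ∀ v, IsClassOf (Kv v) (Kv v ⊗[ℚ] B) (m v) := by
  obtain ⟨γ, hγ⟩ := h
  obtain ⟨c, rfl⟩ := cls_surj γ
  obtain ⟨B, hB⟩ := BR_exists_csa ℚ c
  refine ⟨B, fun v => ?_⟩
  have h1 : IsClassOf ℚ B (Quotient.mk (Brauer.CSA_Setoid ℚ) B) := ⟨B, rfl, ⟨AlgEquiv.refl⟩⟩
  refine isClassOf_baseChange B h1 ?_
  rw [← hγ, h2_eq h1 hB]

end BB37
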