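import Pool.Agent.Lib.MP_bb37eb_nt.BRX.Pull

/-! Brauer classes of a scheme given on an affine cover by open immersions. -/

namespace BB37

open AlgebraicGeometry CategoryTheory TensorProduct

theorem spMap_preimage {R S : Type} [CommRing R] [CommRing S] (l : Sp S ⟶ Sp R) :
    spMap (Spec.preimage l).hom = l := Spec.map_preimage l

theorem spMap_inj {R S : Type} [CommRing R] [CommRing S] {φ ψ : R →+* S}
    (h : spMap φ = spMap ψ) : φ = ψ := by
  have := Spec.map_injective h
  exact congrArg CommRingCat.Hom.hom this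

/-- an open immersion of an affine scheme identifies its ring with the ring of its image -/
theorem exists_image {Y : Scheme.{0}} {R : Type} [CommRing R] (ι : Sp R ⟶ Y)
    [IsOpenImmersion ι] : ∃ (U : Y.Opens) (hU : IsAffineOpen U) (e : R ≃+* Γ(Y, U)),
    (∀ z : Sp R, ι z ∈ U) ∧
    ∀ {S : Type} [CommRing S] (φ : Γ(Y, U) →+* S),
      pointOf hU φ = spMap (φ.comp e.toRingHom) ≫ ι := by
  have hU : IsAffineOpen ι.opensRange := isAffineOpen_opensRange ι
  have hr : Set.range ι = Set.range hU.fromSpec := by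
    rw [hU.range_fromSpec]
    rfl
  let i : Sp R ≅ Sp Γ(Y, ι.opensRange) := IsOpenImmersion.isoOfRangeEq ι hU.fromSpec hr
  have h1 : i.inv ≫ ι = hU.fromSpec := IsOpenImmersion.isoOfRangeEq_inv_fac _ _ _
  let f : Γ(Y, ι.opensRange) →+* R := (Spec.preimage i.hom).hom
  let g : R →+* Γ(Y, ι.opensRange) := (Spec.preimage i.inv).hom
  have hf : spMap f = i.hom := spMap_preimage _
  have hg : spMap g = i.inv := spMap_preimage _
  have hfg : f.comp g = RingHom.id R := by
    apply spMap_inj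
    rw [spMap_comp, hf, hg, Iso.hom_inv_id]
    exact (Spec.map_id _).symm
  have hgf : g.comp f = RingHom.id _ := by
    apply spMap_inj
    rw [spMap_comp, hf, hg, Iso.inv_hom_id]
    exact (Spec.map_id _).symm
  let e : R ≃+* Γ(Y, ι.opensRange) := RingEquiv.ofRingHom g f hgf hfg
  refine ⟨ι.opensRange, hU, e, fun z => ⟨z, rfl⟩, ?_⟩
  intro S _ φ
  have he : e.toRingHom = g := rfl
  rw [he, spMap_comp, hg, Category.assoc, h1]

/-- Brauer classes from Azumaya algebras on an affine cover -/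
theorem exists_brClass {Y : Scheme.{0}}
    (ev : ∀ (K : Type) [Field K] [CharZero K], (Sp K ⟶ Y) → BrauerGroup.{0, 0} K)
    (h : ∀ y : Y, ∃ (R : Type) (_ : CommRing R) (ι : Sp R ⟶ Y) (_ : IsOpenImmersion ι) (z : Sp R)
      (A : Type) (_ : Ring A) (_ : Algebra R A), ι z = y ∧ IsAzumaya R A ∧
      ∀ (K : Type) [Field K] [CharZero K] (φ : R →+* K),
        letI := φ.toAlgebra
        IsClassOf K (K ⊗[R] A) (ev K (spMap φ ≫ ι))) :
    ∃ α : BrClass Y, ∀ (K : Type) [Field K] [CharZero K] (P : Sp K ⟶ Y),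
      α.ev K P = ev K P := by
  refine ⟨⟨ev, ?_⟩, fun _ _ _ _ => rfl⟩
  intro y
  obtain ⟨R, _, ι, _, z, A, _, _, hz, hA, hcl⟩ := h y
  obtain ⟨U, hU, e, hzU, he⟩ := exists_image ι
  let _ : Algebra R Γ(Y, U) := e.toRingHom.toAlgebra
  refine ⟨U, hU, Γ(Y, U) ⊗[R] A, inferInstance, inferInstance, hz ▸ hzU z,
    azumaya_baseChange _ _ _, ?_⟩
  intro K _ _ φ
  have h1 := hcl K (φ.comp e.toRingHom)
  rw [← he] at h1
  let _ : Algebra Γ(Y, U) K := φ.toAlgebra
  let _ : Algebra R K := (φ.comp e.toRingHom).toAlgebra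
  have : IsScalarTower R Γ(Y, U) K := IsScalarTower.of_algebraMap_eq fun x => rfl
  exact h1.of_algEquiv (fibreTrans' R Γ(Y, U) K A).symm

/-- local form of a Brauer class at a ring-valued point: the values at the points
`Sp K ⟶ Sp R ⟶ Y` are locally the fibres of Azumaya algebras over localizations of `R` -/
theorem BrClass.exists_away {Y : Scheme.{0}} (α : BrClass Y) {R : Type} [CommRing R]
    (l : Sp R ⟶ Y) (P : Ideal R) (hP : P.IsPrime) :
    ∃ (h : R) (_ : h ∉ P) (A : Type) (_ : Ring A) (_ : Algebra (Localization.Away h) A),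
    IsAzumaya (Localization.Away h) A ∧
    ∀ (K : Type) [Field K] [CharZero K] (θ : Localization.Away h →+* K),
      letI := θ.toAlgebra
      IsClassOf K (K ⊗[Localization.Away h] A)
        (α.ev K (spMap (θ.comp (algebraMap R (Localization.Away h))) ≫ l)) := by
  obtain ⟨U, hU, A, iA, iA', hy, hA, h1⟩ := α.loc (l (⟨P, hP⟩ : PrimeSpectrum R))
  obtain ⟨_, ⟨h, rfl⟩, hPh, hhU⟩ :=
    PrimeSpectrum.isTopologicalBasis_basic_opens.exists_subset_of_mem_open
      (a := (⟨P, hP⟩ : PrimeSpectrum R)) (u := ((l ⁻¹ᵁ U : (Sp R).Opens) : Set (Sp R))) hy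
      (l ⁻¹ᵁ U).isOpen
  obtain ⟨f, hf⟩ := exists_ringHom hU (spMap (algebraMap R (Localization.Away h)) ≫ l) (by
    intro z
    have h2 : (spMap (algebraMap R (Localization.Away h))) z ∈
        (PrimeSpectrum.basicOpen h : Set (PrimeSpectrum R)) := by
      rw [← PrimeSpectrum.localization_away_comap_range (Localization.Away h) h]
      exact ⟨z, rfl⟩
    exact hhU h2)
  let _ : Algebra Γ(Y, U) (Localization.Away h) := f.toAlgebra
  refine ⟨h, hPh, Localization.Away h ⊗[Γ(Y, U)] A, inferInstance, inferInstance,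
    azumaya_baseChange _ _ _, ?_⟩
  intro K _ _ θ
  have h2 := h1 K (θ.comp f)
  rw [pointOf_comp, hf, ← Category.assoc, ← spMap_comp] at h2
  let _ : Algebra (Localization.Away h) K := θ.toAlgebra
  let _ : Algebra Γ(Y, U) K := (θ.comp f).toAlgebra
  have : IsScalarTower Γ(Y, U) (Localization.Away h) K :=
    IsScalarTower.of_algebraMap_eq fun x => rfl
  exact h2.of_algEquiv (fibreTrans' Γ(Y, U) (Localization.Away h) K A).symm

end BB37
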