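import Pool.Agent.Lib.MP_bb37eb_nt.BRX.Charts
import Pool.Agent.Lib.MP_bb37eb_nt.EC.Chart
import Pool.Agent.Lib.MP_bb37eb_nt.DE.TwoB
import Pool.Agent.Lib.MP_bb37eb_nt.DE.Step

/-! The Brauer classes of a scheme with a map to the curve `y^2 = x^3 + x`. -/

namespace BB37

open AlgebraicGeometry CategoryTheory TensorProduct

theorem castPt_mk {b b' : ℚ} (h : b = b') {K : Type} [Field K] [Algebra ℚ K] (x y : K) :
    castPt h (mk b x y) = mk b' x y := by
  subst h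
  rfl

theorem castPt_ptT {b b' : ℚ} (h : b = b') {K : Type} [Field K] [Algebra ℚ K] (x y : K) :
    castPt h (ptT b x y) = ptT b' x y := by
  subst h
  rfl

/-- the universal property of `RT` -/
theorem exists_rtLift (b : ℚ) (Ω : Type) [CommRing Ω] (σ : ℚ →+* Ω) (u v : Ω)
    (h : v ^ 2 = u + σ b * u ^ 3) : ∃ f : RT b →+* Ω, f (rtR b) = u ∧ f (rtS b) = v := by
  let g : MvPolynomial (Fin 2) ℚ →+* Ω := MvPolynomial.eval₂Hom σ ![u, v]
  refine ⟨Ideal.Quotient.lift (relT b) g ?_, ?_, ?_⟩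
  · intro a ha
    have h1 : relT b ≤ RingHom.ker g := by
      rw [relT, Ideal.span_le, Set.singleton_subset_iff, SetLike.mem_coe, RingHom.mem_ker]
      simp [g, h]
    exact h1 ha
  · exact (Ideal.Quotient.lift_mk _ _ _).trans (by simp [g])
  · exact (Ideal.Quotient.lift_mk _ _ _).trans (by simp [g])

/-- the classes on the chart `E - 0` -/
theorem exists_azu0 (n : ℕ) (ξ : Xi (bn n) n) {R : Type} [CommRing R] (σ : ℚ →+* R) {u v : R}
    (h : v ^ 2 = u ^ 3 + u) : ∃ (A : Type) (_ : Ring A) (_ : Algebra R A), IsAzumaya R A ∧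
    ∀ (K : Type) [Field K] [CharZero K] (φ : R →+* K) (x : BrauerGroup.{0, 0} K)
      (_ : h2 K x = al (bn_tower n) ξ (castPt (bn_n n).symm (mk 1 (φ u) (φ v)))),
      letI := φ.toAlgebra
      IsClassOf K (K ⊗[R] A) x := by
  obtain ⟨A, iA, iA', hA, h4⟩ := chart0 (bn_tower n) ξ
  obtain ⟨f, hf1, hf2, -⟩ := exists_rcLift (bn n n) R σ u v (by
    rw [bn_n, map_one, one_mul, h])
  let _ : Algebra (RC (bn n n)) R := f.toAlgebra
  refine ⟨R ⊗[RC (bn n n)] A, inferInstance, inferInstance, azumaya_baseChange _ _ _, ?_⟩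
  intro K _ _ φ x hx
  let _ : Algebra R K := φ.toAlgebra
  let _ : Algebra (RC (bn n n)) K := (φ.comp f).toAlgebra
  have : IsScalarTower (RC (bn n n)) R K := IsScalarTower.of_algebraMap_eq fun x => rfl
  obtain ⟨c, hc⟩ := cls_surj (al (bn_tower n) ξ (castPt (bn_n n).symm (mk 1 (φ u) (φ v))))
  have h5 := h4 K (φ.comp f) (φ u) (φ v)
    (by rw [RingHom.comp_apply, hf1]) (by rw [RingHom.comp_apply, hf2]) c (by
      rw [hc, castPt_mk])
  obtain ⟨i1, i2, i3⟩ := BR_fibre_csa K (RC (bn n n)) A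
  have h6 : IsClassOf K (K ⊗[RC (bn n n)] A) x := isClassOf_of_hasClass h5 (by rw [hx, hc])
  exact h6.of_algEquiv (fibreTrans' (RC (bn n n)) R K A).symm

/-- the classes on the chart `E - T` -/
theorem exists_azuT (n : ℕ) (ξ : Xi (bn n) n) {R : Type} [CommRing R] (σ : ℚ →+* R) {u v : R}
    (h : v ^ 2 = u ^ 3 + u) : ∃ (A : Type) (_ : Ring A) (_ : Algebra R A), IsAzumaya R A ∧
    ∀ (K : Type) [Field K] [CharZero K] (φ : R →+* K) (x : BrauerGroup.{0, 0} K)
      (_ : h2 K x = al (bn_tower n) ξ (castPt (bn_n n).symm (ptT 1 (φ u) (φ v)))),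
      letI := φ.toAlgebra
      IsClassOf K (K ⊗[R] A) x := by
  obtain ⟨A, iA, iA', hA, h4⟩ := chartT (bn_tower n) ξ
  obtain ⟨f, hf1, hf2⟩ := exists_rtLift (bn n n) R σ u v (by
    rw [bn_n, map_one, one_mul, h, add_comm])
  let _ : Algebra (RT (bn n n)) R := f.toAlgebra
  refine ⟨R ⊗[RT (bn n n)] A, inferInstance, inferInstance, azumaya_baseChange _ _ _, ?_⟩
  intro K _ _ φ x hx
  let _ : Algebra R K := φ.toAlgebra
  let _ : Algebra (RT (bn n n)) K := (φ.comp f).toAlgebra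
  have : IsScalarTower (RT (bn n n)) R K := IsScalarTower.of_algebraMap_eq fun x => rfl
  obtain ⟨c, hc⟩ := cls_surj (al (bn_tower n) ξ (castPt (bn_n n).symm (ptT 1 (φ u) (φ v))))
  have h5 := h4 K (φ.comp f) (φ u) (φ v)
    (by rw [RingHom.comp_apply, hf1]) (by rw [RingHom.comp_apply, hf2]) c (by
      rw [hc, castPt_ptT])
  obtain ⟨i1, i2, i3⟩ := BR_fibre_csa K (RT (bn n n)) A
  have h6 : IsClassOf K (K ⊗[RT (bn n n)] A) x := isClassOf_of_hasClass h5 (by rw [hx, hc])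
  exact h6.of_algEquiv (fibreTrans' (RT (bn n n)) R K A).symm

/-- A map to the curve `y^2 = x^3 + x`, given on field-valued points, and on an affine open cover
by coordinates `(u, v) = (x, y)` or `(u, v) = (1 / x, y / x ^ 2)`. -/
structure EMap (Y : Scheme.{0}) where
  pt : ∀ (K : Type) [Field K] [CharZero K], (Sp K ⟶ Y) → Pt 1 K
  loc : ∀ y : Y, ∃ (R : Type) (_ : CommRing R) (ι : Sp R ⟶ Y) (_ : IsOpenImmersion ι) (z : Sp R)
    (_ : ℚ →+* R) (u v : R), ι z = y ∧ v ^ 2 = u ^ 3 + u ∧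
    ((∀ (K : Type) [Field K] [CharZero K] (φ : R →+* K),
        pt K (spMap φ ≫ ι) = mk 1 (φ u) (φ v)) ∨
      (∀ (K : Type) [Field K] [CharZero K] (φ : R →+* K),
        pt K (spMap φ ≫ ι) = ptT 1 (φ u) (φ v)))

variable {Y : Scheme.{0}}

/-- the class attached to `xi` -/
theorem EMap.exists_class (E : EMap Y) (n : ℕ) (ξ : Xi (bn n) n) : ∃ α : BrClass Y,
    ∀ (K : Type) [Field K] [CharZero K] (P : Sp K ⟶ Y),
      h2 K (α.ev K P) = al (bn_tower n) ξ (castPt (bn_n n).symm (E.pt K P)) := by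
  obtain ⟨α, hα⟩ := exists_brClass (Y := Y)
    (fun K _ _ P => brOf K (al (bn_tower n) ξ (castPt (bn_n n).symm (E.pt K P)))) (by
    intro y
    obtain ⟨R, iR, ι, iι, z, σ, u, v, hz, huv, h⟩ := E.loc y
    rcases h with h | h
    · obtain ⟨A, iA, iA', hA, h1⟩ := exists_azu0 n ξ σ huv
      refine ⟨R, iR, ι, iι, z, A, iA, iA', hz, hA, ?_⟩
      intro K _ _ φ
      exact h1 K φ _ (by rw [h2_brOf, h])
    · obtain ⟨A, iA, iA', hA, h1⟩ := exists_azuT n ξ σ huv
      refine ⟨R, iR, ι, iι, z, A, iA, iA', hz, hA, ?_⟩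
      intro K _ _ φ
      exact h1 K φ _ (by rw [h2_brOf, h]))
  exact ⟨α, fun K _ _ P => by rw [hα, h2_brOf]⟩

/-- A family in the Brauer-Manin set of a scheme over `Y` gives an orthogonal family of points of
the curve. -/
theorem EMap.orth (E : EMap Y) {Y' : Scheme.{0}} (g : Y' ⟶ Y) {M : Adelic Y'}
    (hM : M ∈ BMset Y') (n : ℕ) :
    Orth (bn_tower n) (d := n) fun v => castPt (bn_n n).symm (E.pt (Kv v) (M v ≫ g)) := by
  intro ξ
  obtain ⟨α, hα⟩ := E.exists_class n ξ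
  obtain ⟨γ, hγ⟩ := exists_h2_of_glob (hM (α.pull g))
  refine ⟨γ, fun v => ?_⟩
  rw [hγ, BrClass.pull_ev, hα]

end BB37
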