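import Pool.Agent.Lib.MP_bb37eb_nt.BRX.Pts
import Pool.Agent.Lib.MP_bb37eb_nt.SCH.SurfC
import Pool.Agent.Lib.MP_bb37eb_nt.DE.End
import Pool.Agent.Lib.MP_bb37eb_nt.ZA.Final
import Pool.Agent.Lib.MP_bb37eb_nt.AR.TwoAdic

/-! The Brauer-Manin sets of the fibres over the rational points other than `t = 0` are empty. -/

namespace BB37

open AlgebraicGeometry CategoryTheory Polynomial

/-- the points over a point of a chart of the projective line -/
theorem Surf.exists_chart_over (S : Surf) {K : Type} [Field K] [Algebra ℚ K] (Q : Sp K ⟶ S.X)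
    (j : Fin 2) (a : K) (h : Q ≫ S.p = spMap (evQ a) ≫ kap j) :
    ∃ (i : Fin 4) (φ : Ch i →+* K), tau i = j ∧ Q = spMap φ ≫ S.c i ∧ φ (chA i) = a := by
  obtain ⟨z⟩ : Nonempty (Sp K) := inferInstanceAs (Nonempty (PrimeSpectrum K))
  obtain ⟨i, hi, y, hy⟩ := S.chart_of_p j (Q z) ((spMap (evQ a)) z) (by
    have := congrArg (fun f : Sp K ⟶ PP 1 => f z) h
    simp only [Scheme.Hom.comp_apply] at this
    exact this.symm)
  obtain ⟨φ, hφ⟩ := exists_lift_point (S.c i) Q z y hy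
  refine ⟨i, φ, hi, hφ, ?_⟩
  have h1 : spMap (φ.comp (algebraMap ℚ[X] (Ch i))) ≫ kap j = spMap (evQ a) ≫ kap j := by
    rw [← h, hφ, Category.assoc, S.c_p, ← Category.assoc, ← spMap_comp, hi]
  have h2 := spMap_comp_injective (kap j) h1
  have h3 := congrArg (fun f : ℚ[X] →+* K => f Polynomial.X) h2
  simp only [evQ_X] at h3
  exact h3

/-- coordinates of the points of the curve -/
theorem mk_zero_or_T {K : Type} [Field K] [CharZero K] {b c : K} (h : c ^ 2 = b ^ 3 + b)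
    (h1 : mk 1 b c = 0 ∨ mk 1 b c = T 1) : b = 0 ∧ c = 0 := by
  have hc : OnCurve 1 K b c := by
    rw [OnCurve, map_one, one_mul, h]
  rcases h1 with h1 | h1
  · exact absurd h1 (mk_ne_zero 1 one_ne_zero hc)
  · have hb : b = 0 := by
      rw [← xc_mk 1 one_ne_zero hc, h1, xc_T one_ne_zero]
    refine ⟨hb, ?_⟩
    rw [hb] at h
    have : c ^ 2 = 0 := by rw [h]; ring
    exact pow_eq_zero_iff two_ne_zero |>.1 this

theorem ptT_zero_or_T {K : Type} [Field K] [CharZero K] {b c : K} (h : c ^ 2 = b ^ 3 + b)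
    (h1 : ptT 1 b c = 0 ∨ ptT 1 b c = T 1) : b = 0 ∧ c = 0 := by
  by_cases hb : b = 0
  · refine ⟨hb, ?_⟩
    rw [hb] at h
    have : c ^ 2 = 0 := by rw [h]; ring
    exact pow_eq_zero_iff two_ne_zero |>.1 this
  · exfalso
    rw [ptT, if_neg hb] at h1
    have h2 : (c / b ^ 2) ^ 2 = (1 / b) ^ 3 + 1 / b := by
      field_simp
      rw [h]
      ring
    have h3 := (mk_zero_or_T h2 h1).1
    exact one_div_ne_zero hb h3

theorem ptI_zero_or_T {K : Type} [Field K] [CharZero K] {i : Fin 4} {b c : K}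
    (h : c ^ 2 = b ^ 3 + b) (h1 : ptI i b c = 0 ∨ ptI i b c = T 1) : b = 0 ∧ c = 0 := by
  rw [ptI] at h1
  split_ifs at h1
  · exact mk_zero_or_T h h1
  · exact ptT_zero_or_T h h1

/-- the equations of a point of a chart -/
theorem ch_eqs {i : Fin 4} {K : Type} [CommRing K] (φ : Ch i →+* K) :
    φ (chC i) ^ 2 = φ (chB i) ^ 3 + φ (chB i) ∧
      φ (chD i) ^ 2 = Gf i (φ (chA i)) (φ (chB i)) (φ (chC i)) := by
  constructor
  · rw [← map_pow, ← map_pow, ← map_add]
    exact congrArg φ (qc_sq _ _ _)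
  · rw [← map_pow, ← map_Gf]
    exact congrArg φ (qd_sq _ _ _)

/-- A family in the Brauer-Manin set of a scheme over the surface: its 2-adic point lies over
`0` or `T`. -/
theorem Surf.ept_two (S : Surf) {Y : Scheme.{0}} (g : Y ⟶ S.X) {M : Adelic Y}
    (hM : M ∈ BMset Y) :
    S.ept (M (some two) ≫ g) = 0 ∨ S.ept (M (some two) ≫ g) = T 1 :=
  DE_end (fun x hx => Z_H2 x hx) (fun v => S.ept (M v ≫ g)) fun n => S.emap.orth g hM n

/-- the coordinates `b`, `c` of the 2-adic point vanish -/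
theorem Surf.coord_two (S : Surf) {Y : Scheme.{0}} (g : Y ⟶ S.X) {M : Adelic Y}
    (hM : M ∈ BMset Y) {i : Fin 4} (φ : Ch i →+* Kv (some two))
    (h : M (some two) ≫ g = spMap φ ≫ S.c i) : φ (chB i) = 0 ∧ φ (chC i) = 0 := by
  have h1 := S.ept_two g hM
  rw [h, S.ept_eq] at h1
  exact ptI_zero_or_T (ch_eqs φ).1 h1

theorem no_point {K : Type} [Field K] (h1 : ∀ w t : K, w ^ 2 ≠ 2 * t ^ 2 + 2 * t + 2)
    (h2 : ∀ w : K, w ^ 2 ≠ 2) {i : Fin 4} (hi : tau i = 1) (φ : Ch i →+* K)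
    (hb : φ (chB i) = 0) (hc : φ (chC i) = 0) : False := by
  have h := (ch_eqs φ).2
  rw [hb, hc] at h
  have hi' : i = 2 ∨ i = 3 := by
    fin_cases i <;> simp_all [tau]
  rcases hi' with rfl | rfl
  · refine h1 (φ (chD 2)) (φ (chA 2)) ?_
    refine h.trans ?_
    simp only [Gf]
    ring
  · refine h2 (φ (chD 3)) ?_
    refine h.trans ?_
    simp only [Gf]
    ring

theorem quad_ne_Kv (w t : Kv (some two)) : w ^ 2 ≠ 2 * t ^ 2 + 2 * t + 2 := quad_ne w t

theorem sq_ne_two_Kv (w : Kv (some two)) : w ^ 2 ≠ 2 := sq_ne_two w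

/-- the chart `t ≠ 0` has no 2-adic points over `0` or `T` -/
theorem no_point_two {i : Fin 4} (hi : tau i = 1) (φ : Ch i →+* Kv (some two))
    (hb : φ (chB i) = 0) (hc : φ (chC i) = 0) : False :=
  no_point quad_ne_Kv sq_ne_two_Kv hi φ hb hc

/-- the Brauer-Manin sets of the fibres are empty -/
theorem Surf.BMset_fibre (S : Surf) (P : Sp ℚ ⟶ PP 1) (hP : P ≠ P0) :
    BMset (Limits.pullback S.p P) = ∅ := by
  rw [Set.eq_empty_iff_forall_notMem]
  intro M hM
  obtain ⟨a, rfl⟩ := P1_point_ne P hP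
  let Q : Sp (Kv (some two)) ⟶ S.X := M (some two) ≫ Limits.pullback.fst _ _
  have hQ : Q ≫ S.p = spMap (evQ (algebraMap ℚ (Kv (some two)) a)) ≫ kap 1 := by
    have e1 : M (some two) ≫ Limits.pullback.snd S.p (spMap (evQ a) ≫ kap 1) =
        spMap (algebraMap ℚ (Kv (some two))) := toSpQ_unique _ _
    have e2 : (algebraMap ℚ (Kv (some two))).comp (evQ a) =
        evQ (algebraMap ℚ (Kv (some two)) a) := by
      apply Polynomial.ringHom_ext
      · intro r
        simp [evQ]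
      · simp [evQ]
    rw [Category.assoc, Limits.pullback.condition, ← Category.assoc, e1, ← Category.assoc,
      ← spMap_comp, e2]
  obtain ⟨i, φ, hi, hφ, -⟩ := S.exists_chart_over Q 1 _ hQ
  obtain ⟨hb, hc⟩ := S.coord_two (Limits.pullback.fst _ _) hM φ hφ
  exact no_point_two hi φ hb hc

/-- the fibres over the rational points other than `t = 0` satisfy the conclusion -/
theorem Surf.fibre_BMOnly (S : Surf) (P : Sp ℚ ⟶ PP 1) (hP : P ≠ P0) :
    BMOnly (Limits.pullback S.p P) := by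
  have h := S.BMset_fibre P hP
  have h1 : ratPts (Limits.pullback S.p P) = ∅ := by
    rw [← Set.subset_empty_iff, ← h]
    exact ratPts_subset_BMset _
  rw [BMOnly, h, h1]
  exact @closure_empty _ (adTop _)

end BB37
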