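import Pool.Agent.Lib.MP_bb37eb_nt.BRX.Charts
import Pool.Agent.Lib.MP_bb37eb_nt.P.Main

/-! Brauer classes of a scheme are constant on projective lines. -/

namespace BB37

open AlgebraicGeometry CategoryTheory TensorProduct Polynomial

/-- the point with coordinate `t` of the affine line over `K` -/
noncomputable def linePt {K K' : Type} [Field K] [Field K'] [Algebra K K'] (t : K') :
    Sp K' ⟶ Sp K[X] :=
  spMap (aeval t : K[X] →ₐ[K] K').toRingHom

variable {Y : Scheme.{0}}

/-- a Brauer class of a scheme along a morphism from the affine line -/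
theorem BrClass.exists_lineClass (α : BrClass Y) (K : Type) [Field K] (l : Sp K[X] ⟶ Y) :
    ∃ L : LineClass K, ∀ (K' : Type) [Field K'] [CharZero K'] [Algebra K K'] (t : K'),
      L.ev K' t = α.ev K' (linePt (K := K) t ≫ l) := by
  refine ⟨⟨fun K' _ _ _ t => α.ev K' (linePt (K := K) t ≫ l), ?_⟩, fun _ _ _ _ _ => rfl⟩
  intro P hP
  obtain ⟨h, hh, A, iA, iA', hA, hloc⟩ := α.exists_away l P hP
  refine ⟨h, hh, A, iA, iA', hA, ?_⟩
  intro K' _ _ _ t θ hθ
  have h1 := hloc K' θ
  have e : θ.comp (algebraMap K[X] (Localization.Away h)) =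
      (aeval t : K[X] →ₐ[K] K').toRingHom := by
    ext f
    · exact hθ _
    · exact hθ _
  rw [e] at h1
  exact h1

/-- a Brauer class is constant along a projective line (two charts `l`, `l'`) -/
theorem BrClass.const_on_line (α : BrClass Y) (K : Type) [Field K] [CharZero K]
    (l l' : Sp K[X] ⟶ Y)
    (h : ∀ (K' : Type) [Field K'] [CharZero K'] [Algebra K K'] (t : K'), t ≠ 0 →
      linePt (K := K) t ≫ l = linePt (K := K) t⁻¹ ≫ l') (a b : K) :
    α.ev K (linePt (K := K) a ≫ l) = α.ev K (linePt (K := K) b ≫ l) := by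
  obtain ⟨L, hL⟩ := α.exists_lineClass K l
  obtain ⟨L', hL'⟩ := α.exists_lineClass K l'
  rw [← hL, ← hL]
  refine P_const K L L' ?_ a b
  intro K' _ _ _ t ht
  rw [hL, hL', h K' t ht]

/-- the same when the two charts agree on the generic point of the line -/
theorem BrClass.const_on_line' (α : BrClass Y) (K : Type) [Field K] [CharZero K]
    (l l' : Sp K[X] ⟶ Y)
    (h : ∀ (S : Type) [CommRing S] (φ ψ : K[X] →+* S), φ.comp C = ψ.comp C → φ X * ψ X = 1 →
      spMap φ ≫ l = spMap ψ ≫ l') (a b : K) :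
    α.ev K (linePt (K := K) a ≫ l) = α.ev K (linePt (K := K) b ≫ l) := by
  refine α.const_on_line K l l' ?_ a b
  intro K' _ _ _ t ht
  refine h K' _ _ ?_ ?_
  · ext x
    simp
  · simp [ht]

end BB37
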