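import Pool.Agent.Lib.MP_bb37eb_nt.BRX.EMap
import Pool.Agent.Lib.MP_bb37eb_nt.SCH.Surf
import Pool.Agent.Lib.MP_bb37eb_nt.SCH.Gen

/-! The map from the surface to the curve `y^2 = x^3 + x`. -/

namespace BB37

open AlgebraicGeometry CategoryTheory Polynomial

/-- the coordinate `a` of the chart `i` -/
noncomputable abbrev chA (i : Fin 4) : Ch i := qa i ℚ[X] X

/-- the coordinate `b` of the chart `i` -/
noncomputable abbrev chB (i : Fin 4) : Ch i := qb i ℚ[X] X

/-- the coordinate `c` of the chart `i` -/
noncomputable abbrev chC (i : Fin 4) : Ch i := qc i ℚ[X] X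

/-- the coordinate `d` of the chart `i` -/
noncomputable abbrev chD (i : Fin 4) : Ch i := qd i ℚ[X] X

theorem Surf.transition2 (S : Surf) {i j : Fin 4} {B : Type} [CommRing B] {φ : Ch i →+* B}
    {ψ : Ch j →+* B} (h : spMap φ ≫ S.c i = spMap ψ ≫ S.c j) (q q' : Ch i) (r r' : Ch j)
    (e : gen i q * gen j r = gen i q' * gen j r') : φ q * ψ r = φ q' * ψ r' := by
  have h1 := transition (S.c i) (S.c j) (gen i) (gen j) (gen_injective i) (S.gen_eq i j) φ ψ h
    ![q, -q'] ![r, r'] (by
      rw [Fin.sum_univ_two]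
      simp only [Matrix.cons_val_zero, Matrix.cons_val_one, map_neg]
      rw [e]
      ring)
  rw [Fin.sum_univ_two] at h1
  simp only [Matrix.cons_val_zero, Matrix.cons_val_one, map_neg] at h1
  linear_combination h1

/-- the charts over `E - 0` -/
def isE (i : Fin 4) : Prop := i = 0 ∨ i = 2

instance (i : Fin 4) : Decidable (isE i) := inferInstanceAs (Decidable (_ ∨ _))

/-- the point of the curve with given coordinates -/
noncomputable def ptI (i : Fin 4) {K : Type} [Field K] [CharZero K] (b c : K) : Pt 1 K :=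
  if isE i then mk 1 b c else ptT 1 b c

theorem ptI_swap {K : Type} [Field K] [CharZero K] {b c b' c' : K} (h : b * b' = 1)
    (h' : c' * b ^ 2 = c) : mk 1 b c = ptT 1 b' c' := by
  have hb : b ≠ 0 := left_ne_zero_of_mul_eq_one h
  have hb' : b' ≠ 0 := right_ne_zero_of_mul_eq_one h
  rw [ptT, if_neg hb']
  have e1 : b = 1 / b' := by
    field_simp
    exact h
  have e2 : c = c' / b' ^ 2 := by
    rw [← h', e1]
    field_simp
  rw [← e1, ← e2]

/-- the point of the curve does not depend on the chart -/
theorem Surf.ptI_eq (S : Surf) {i j : Fin 4} {K : Type} [Field K] [CharZero K] {φ : Ch i →+* K}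
    {ψ : Ch j →+* K} (h : spMap φ ≫ S.c i = spMap ψ ≫ S.c j) :
    ptI i (φ (chB i)) (φ (chC i)) = ptI j (ψ (chB j)) (ψ (chC j)) := by
  have hx := fx_ne_zero
  have h1 : ∀ (q q' : Ch i) (r r' : Ch j), gen i q * gen j r = gen i q' * gen j r' →
      φ q * ψ r = φ q' * ψ r' := fun q q' r r' e => S.transition2 h q q' r r' e
  by_cases hi : isE i <;> by_cases hj : isE j
  · rw [ptI, ptI, if_pos hi, if_pos hj]
    have e1 : φ (chB i) = ψ (chB j) := by
      have := h1 (chB i) 1 1 (chB j) (by
        rw [map_one, map_one, mul_one, one_mul, gen_qb, gen_qb]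
        rcases hi with rfl | rfl <;> rcases hj with rfl | rfl <;> simp [fb])
      simpa using this
    have e2 : φ (chC i) = ψ (chC j) := by
      have := h1 (chC i) 1 1 (chC j) (by
        rw [map_one, map_one, mul_one, one_mul, gen_qc, gen_qc]
        rcases hi with rfl | rfl <;> rcases hj with rfl | rfl <;> simp [fc])
      simpa using this
    rw [e1, e2]
  · rw [ptI, ptI, if_pos hi, if_neg hj]
    have hj' : j = 1 ∨ j = 3 := by
      rw [isE] at hj
      omega
    refine ptI_swap ?_ ?_
    · have := h1 (chB i) 1 (chB j) 1 (by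
        rw [map_one, map_one, gen_qb, gen_qb]
        rcases hi with rfl | rfl <;> rcases hj' with rfl | rfl <;> simp [fb, hx])
      simpa using this
    · have := h1 (chB i ^ 2) (chC i) (chC j) 1 (by
        rw [map_one, map_pow, gen_qb, gen_qc, gen_qc]
        rcases hi with rfl | rfl <;> rcases hj' with rfl | rfl <;> simp [fb, fc] <;> field_simp)
      rw [map_pow, map_one, mul_one] at this
      rw [mul_comm, this]
  · rw [ptI, ptI, if_neg hi, if_pos hj]
    have hi' : i = 1 ∨ i = 3 := by
      rw [isE] at hi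
      omega
    symm
    refine ptI_swap ?_ ?_
    · have := h1 (chB i) 1 (chB j) 1 (by
        rw [map_one, map_one, gen_qb, gen_qb]
        rcases hi' with rfl | rfl <;> rcases hj with rfl | rfl <;> simp [fb, hx])
      rw [map_one, map_one, mul_one] at this
      rw [mul_comm, this]
    · have := h1 (chC i) 1 (chB j ^ 2) (chC j) (by
        rw [map_one, map_pow, gen_qb, gen_qc, gen_qc]
        rcases hi' with rfl | rfl <;> rcases hj with rfl | rfl <;> simp [fb, fc] <;> field_simp)
      rw [map_pow, map_one, one_mul] at this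
      exact this
  · rw [ptI, ptI, if_neg hi, if_neg hj]
    have hi' : i = 1 ∨ i = 3 := by
      rw [isE] at hi
      omega
    have hj' : j = 1 ∨ j = 3 := by
      rw [isE] at hj
      omega
    have e1 : φ (chB i) = ψ (chB j) := by
      have := h1 (chB i) 1 1 (chB j) (by
        rw [map_one, map_one, mul_one, one_mul, gen_qb, gen_qb]
        rcases hi' with rfl | rfl <;> rcases hj' with rfl | rfl <;> simp [fb])
      simpa using this
    have e2 : φ (chC i) = ψ (chC j) := by
      have := h1 (chC i) 1 1 (chC j) (by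
        rw [map_one, map_one, mul_one, one_mul, gen_qc, gen_qc]
        rcases hi' with rfl | rfl <;> rcases hj' with rfl | rfl <;> simp [fc])
      simpa using this
    rw [e1, e2]

/-- a point of the surface lies in a chart -/
theorem Surf.exists_chart (S : Surf) {K : Type} [Field K] (P : Sp K ⟶ S.X) :
    ∃ (i : Fin 4) (φ : Ch i →+* K), P = spMap φ ≫ S.c i := by
  obtain ⟨z⟩ : Nonempty (Sp K) := inferInstanceAs (Nonempty (PrimeSpectrum K))
  obtain ⟨i, y, hy⟩ := S.cov (P z)
  obtain ⟨φ, hφ⟩ := exists_lift_point (S.c i) P z y hy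
  exact ⟨i, φ, hφ⟩

/-- the map to the curve on points -/
noncomputable def Surf.ept (S : Surf) {K : Type} [Field K] [CharZero K] (P : Sp K ⟶ S.X) :
    Pt 1 K :=
  ptI (S.exists_chart P).choose
    ((S.exists_chart P).choose_spec.choose (chB _))
    ((S.exists_chart P).choose_spec.choose (chC _))

theorem Surf.ept_eq (S : Surf) {K : Type} [Field K] [CharZero K] {i : Fin 4} (φ : Ch i →+* K) :
    S.ept (spMap φ ≫ S.c i) = ptI i (φ (chB i)) (φ (chC i)) :=
  S.ptI_eq (S.exists_chart (spMap φ ≫ S.c i)).choose_spec.choose_spec.symm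

/-- the map to the curve -/
noncomputable def Surf.emap (S : Surf) : EMap S.X where
  pt _ _ _ P := S.ept P
  loc y := by
    obtain ⟨i, z, hz⟩ := S.cov y
    refine ⟨Ch i, inferInstance, S.c i, inferInstance, z, algebraMap ℚ (Ch i), chB i,
      chC i, hz, qc_sq _ _ _, ?_⟩
    by_cases hi : isE i
    · left
      intro K _ _ φ
      rw [S.ept_eq, ptI, if_pos hi]
    · right
      intro K _ _ φ
      rw [S.ept_eq, ptI, if_neg hi]

theorem Surf.emap_pt (S : Surf) {K : Type} [Field K] [CharZero K] (P : Sp K ⟶ S.X) :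
    S.emap.pt K P = S.ept P := rfl

end BB37
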