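import Pool.Agent.Lib.MP_bb37eb_nt.BRX.Base

/-! Points in affine open sets, pullback of Brauer classes of schemes, base change of values. -/

namespace BB37

open AlgebraicGeometry CategoryTheory TensorProduct

/-- a point with values in a ring whose image lies in an affine open set is a ring homomorphism -/
theorem exists_ringHom {Y : Scheme.{0}} {U : Y.Opens} (hU : IsAffineOpen U) {S : Type}
    [CommRing S] (P : Sp S ⟶ Y) (h : ∀ z, P z ∈ U) :
    ∃ φ : Γ(Y, U) →+* S, pointOf hU φ = P := by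
  let l : Sp S ⟶ Spec Γ(Y, U) := IsOpenImmersion.lift hU.fromSpec P (by
    rintro _ ⟨z, rfl⟩
    rw [hU.range_fromSpec]
    exact h z)
  refine ⟨(Spec.preimage l).hom, ?_⟩
  have e : Spec.map (CommRingCat.ofHom (Spec.preimage l).hom) = l := Spec.map_preimage l
  rw [pointOf, e]
  exact IsOpenImmersion.lift_fac _ _ _

/-- the spectrum of a field has one point -/
theorem exists_ringHom' {Y : Scheme.{0}} {K : Type} [Field K] (P : Sp K ⟶ Y)
    {U : Y.Opens} (hU : IsAffineOpen U) (z : Sp K) (h : P z ∈ U) :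
    ∃ φ : Γ(Y, U) →+* K, pointOf hU φ = P := by
  apply exists_ringHom hU P
  intro z'
  have : z' = z := Subsingleton.elim (α := PrimeSpectrum K) z' z
  rw [this]
  exact h

theorem spMap_comp {R S T : Type} [CommRing R] [CommRing S] [CommRing T] (φ : R →+* S)
    (ψ : S →+* T) : spMap (ψ.comp φ) = spMap ψ ≫ spMap φ := by
  rw [spMap, CommRingCat.ofHom_comp, Spec.map_comp]

theorem pointOf_comp {Y : Scheme.{0}} {U : Y.Opens} (hU : IsAffineOpen U) {R S : Type}
    [CommRing R] [CommRing S] (φ : Γ(Y, U) →+* R) (ψ : R →+* S) :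
    pointOf hU (ψ.comp φ) = spMap ψ ≫ pointOf hU φ := by
  rw [pointOf, CommRingCat.ofHom_comp, Spec.map_comp, Category.assoc]

/-- pullback of Brauer classes -/
noncomputable def BrClass.pull {Y Y' : Scheme.{0}} (α : BrClass Y) (g : Y' ⟶ Y) : BrClass Y' where
  ev K _ _ P := α.ev K (P ≫ g)
  loc y' := by
    obtain ⟨U, hU, A, iA, iA', hy, hA, h⟩ := α.loc (g y')
    obtain ⟨V, hV, hyV, hVU⟩ := exists_isAffineOpen_mem_and_subset (x := y') (U := g ⁻¹ᵁ U) hy
    let f : Γ(Y, U) →+* Γ(Y', V) := (g.appLE U V hVU).hom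
    let _ : Algebra Γ(Y, U) Γ(Y', V) := f.toAlgebra
    refine ⟨V, hV, Γ(Y', V) ⊗[Γ(Y, U)] A, inferInstance, inferInstance, hyV,
      azumaya_baseChange _ _ _, ?_⟩
    intro K _ _ φ
    have h1 := h K (φ.comp f)
    have e : pointOf hU (φ.comp f) = pointOf hV φ ≫ g := by
      rw [pointOf, CommRingCat.ofHom_comp, Spec.map_comp, Category.assoc, Category.assoc,
        ← IsAffineOpen.SpecMap_appLE_fromSpec g hU hV hVU]
      rfl
    rw [e] at h1
    let _ : Algebra Γ(Y, U) K := (φ.comp f).toAlgebra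
    let _ : Algebra Γ(Y', V) K := φ.toAlgebra
    have : IsScalarTower Γ(Y, U) Γ(Y', V) K := IsScalarTower.of_algebraMap_eq fun x => rfl
    exact h1.of_algEquiv (fibreTrans' Γ(Y, U) Γ(Y', V) K A).symm

theorem BrClass.pull_ev {Y Y' : Scheme.{0}} (α : BrClass Y) (g : Y' ⟶ Y) (K : Type) [Field K]
    [CharZero K] (P : Sp K ⟶ Y') : (α.pull g).ev K P = α.ev K (P ≫ g) := rfl

/-- base change of values -/
theorem BrClass.ev_res {Y : Scheme.{0}} (α : BrClass Y) {K K' : Type} [Field K] [CharZero K]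
    [Field K'] [CharZero K'] [Algebra K K'] (P : Sp K ⟶ Y) :
    h2 K' (α.ev K' (spMap (algebraMap K K') ≫ P)) = res K K' (h2 K (α.ev K P)) := by
  obtain ⟨z⟩ : Nonempty (Sp K) := inferInstanceAs (Nonempty (PrimeSpectrum K))
  obtain ⟨U, hU, A, iA, iA', hy, hA, h⟩ := α.loc (P z)
  obtain ⟨φ, hφ⟩ := exists_ringHom' P hU z hy
  have h1 := h K φ
  have h2 := h K' ((algebraMap K K').comp φ)
  rw [pointOf_comp, hφ] at h2
  rw [hφ] at h1
  let _ : Algebra Γ(Y, U) K := φ.toAlgebra
  let _ : Algebra Γ(Y, U) K' := ((algebraMap K K').comp φ).toAlgebra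
  have : IsScalarTower Γ(Y, U) K K' := IsScalarTower.of_algebraMap_eq fun x => rfl
  exact h2_baseChange h1 (h2.of_algEquiv (fibreTrans' Γ(Y, U) K K' A).symm)

/-- functoriality of values, with algebras -/
theorem BrClass.ev_baseChange {Y : Scheme.{0}} (α : BrClass Y) {K K' : Type} [Field K]
    [CharZero K] [Field K'] [CharZero K'] [Algebra K K'] (P : Sp K ⟶ Y) (C : CSA.{0, 0} K)
    (h : IsClassOf K C (α.ev K P)) :
    IsClassOf K' (K' ⊗[K] C) (α.ev K' (spMap (algebraMap K K') ≫ P)) :=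
  isClassOf_baseChange C h (α.ev_res P)

/-- the values at the rational points come from the rational numbers -/
theorem ratPts_subset_BMset (Y : Scheme.{0}) : ratPts Y ⊆ BMset Y := by
  rintro _ ⟨P, rfl⟩ α
  obtain ⟨C, hC⟩ := Quotient.exists_rep (α.ev ℚ P)
  refine ⟨C, fun v => ?_⟩
  exact α.ev_baseChange P C ⟨C, hC.symm, ⟨AlgEquiv.refl⟩⟩

end BB37
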