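import Pool.Agent.Lib.MP_bb37eb_nt.BRX.Total

/-! The closure of the rational points of the surface is strictly smaller than the Brauer-Manin
set. -/

namespace BB37

open AlgebraicGeometry CategoryTheory

theorem t1_Kv : ∀ v : Place, T1Space (Kv v)
  | none => inferInstanceAs (T1Space ℝ)
  | some p => inferInstanceAs (T1Space ℚ_[(p : ℕ)])

/-- the closure of the rational points is contained in the Brauer-Manin set, if there is only one
rational point -/
theorem closure_ratPts_subset {Y : Scheme.{0}} (x : Sp ℚ ⟶ Y) (hx : ∀ P : Sp ℚ ⟶ Y, P = x) :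
    @closure _ (adTop Y) (ratPts Y) ⊆ BMset Y := by
  intro M hM
  have h : M = fun v => spMap (algebraMap ℚ (Kv v)) ≫ x := by
    funext v
    by_contra h
    have := t1_Kv v
    exact not_mem_closure x hx M v h hM
  rw [h]
  exact ratPts_subset_BMset Y ⟨x, rfl⟩

/-- the closure of the rational points is strictly smaller than the Brauer-Manin set -/
theorem Surf.closure_ssubset (S : Surf) :
    @closure _ (adTop S.X) (ratPts S.X) ⊂ BMset S.X :=
  (closure_ratPts_subset S.x0 S.rat_unique).ssubset_of_ne S.not_BMOnly

end BB37
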