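import Pool.Agent.Lib.MP_bb37eb_nt.BRX.Pull
import Pool.Agent.Lib.MP_bb37eb_nt.SCH.Gen

/-! Points are closed in the topology on the set of points. -/

namespace BB37

open AlgebraicGeometry CategoryTheory

theorem pointOf_injective {Y : Scheme.{0}} {U : Y.Opens} (hU : IsAffineOpen U) {R : Type}
    [CommRing R] : Function.Injective (fun φ : Γ(Y, U) →+* R => pointOf hU φ) :=
  fun _ _ h => spMap_comp_injective (R := Γ(Y, U)) hU.fromSpec h

theorem isClosed_pt (Y : Scheme.{0}) (K : Type) [Field K] [TopologicalSpace K] [T1Space K]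
    (x : Sp K ⟶ Y) : @IsClosed _ (ptTop Y K) {x} := by
  rw [← @isOpen_compl_iff _ _ (ptTop Y K), ptTop, isOpen_iSup_iff]
  intro U
  rw [isOpen_coinduced]
  by_cases h : ∃ φ : Γ(Y, U.1) →+* K, pointOf U.2 φ = x
  · obtain ⟨φ₀, rfl⟩ := h
    have e : (fun φ : Γ(Y, U.1) →+* K => pointOf U.2 φ) ⁻¹' {pointOf U.2 φ₀}ᶜ =
        ⋃ f : Γ(Y, U.1), (fun φ : Γ(Y, U.1) →+* K => φ f) ⁻¹' {φ₀ f}ᶜ := by
      ext φ
      simp only [Set.mem_preimage, Set.mem_compl_iff, Set.mem_singleton_iff, Set.mem_iUnion]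
      constructor
      · intro h1
        by_contra h2
        push Not at h2
        exact h1 (congrArg (fun φ => pointOf U.2 φ) (RingHom.ext h2))
      · rintro ⟨f, hf⟩ h1
        exact hf (congrArg (fun φ : Γ(Y, U.1) →+* K => φ f) (pointOf_injective U.2 h1))
    rw [e]
    refine @isOpen_iUnion _ _ (_) _ fun f => ?_
    refine (iInf_le (fun f : Γ(Y, U.1) =>
      TopologicalSpace.induced (fun φ : Γ(Y, U.1) →+* K => φ f) inferInstance) f) _ ?_
    exact ⟨{φ₀ f}ᶜ, isOpen_compl_singleton, rfl⟩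
  · have e : (fun φ : Γ(Y, U.1) →+* K => pointOf U.2 φ) ⁻¹' {x}ᶜ = Set.univ := by
      ext φ
      simp only [Set.mem_preimage, Set.mem_compl_iff, Set.mem_singleton_iff, Set.mem_univ,
        iff_true]
      exact fun h1 => h ⟨φ, h1⟩
    rw [e]
    exact @isOpen_univ _ (_)

/-- an adelic point whose component at one place differs from that of all rational points is not
in the closure of the rational points, if there is only one rational point -/
theorem not_mem_closure {Y : Scheme.{0}} (x : Sp ℚ ⟶ Y) (hx : ∀ P : Sp ℚ ⟶ Y, P = x)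
    (M : Adelic Y) (v : Place) [T1Space (Kv v)]
    (h : M v ≠ spMap (algebraMap ℚ (Kv v)) ≫ x) :
    M ∉ @closure _ (adTop Y) (ratPts Y) := by
  let _ : ∀ w : Place, TopologicalSpace (Sp (Kv w) ⟶ Y) := fun w => ptTop Y (Kv w)
  have h1 : IsClosed ((fun N : Adelic Y => N v) ⁻¹' {spMap (algebraMap ℚ (Kv v)) ≫ x}) :=
    (isClosed_pt Y (Kv v) _).preimage (continuous_apply v)
  have h2 : ratPts Y ⊆ (fun N : Adelic Y => N v) ⁻¹' {spMap (algebraMap ℚ (Kv v)) ≫ x} := by
    rintro _ ⟨P, rfl⟩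
    rw [hx P]
    rfl
  intro hM
  exact h (closure_minimal h2 h1 hM)

end BB37
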