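import Pool.Agent.Lib.MP_bb37eb_nt.BRX.Fibre
import Pool.Agent.Lib.MP_bb37eb_nt.BRX.TopPt
import Pool.Agent.Lib.MP_bb37eb_nt.BRX.Line

/-! The Brauer-Manin set of the surface is not the closure of the rational points. -/

namespace BB37

open AlgebraicGeometry CategoryTheory Polynomial

/-- a point of the chart `1` with nonzero first coordinate lies in the chart `3` -/
theorem Surf.swap13 (S : Surf) {K : Type} [Field K] (φ : Ch 1 →+* K) (ha : φ (chA 1) ≠ 0) :
    ∃ ψ : Ch 3 →+* K, spMap φ ≫ S.c 1 = spMap ψ ≫ S.c 3 ∧ φ (chA 1) * ψ (chA 3) = 1 ∧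
      ψ (chB 3) = φ (chB 1) ∧ ψ (chC 3) = φ (chC 1) ∧ φ (chA 1) * ψ (chD 3) = φ (chD 1) := by
  have hx := fx_ne_zero
  have ht := ft_ne_zero
  obtain ⟨z⟩ : Nonempty (Sp K) := inferInstanceAs (Nonempty (PrimeSpectrum K))
  obtain ⟨y, hy⟩ := S.ov 1 3 (chA 1) (by
    rw [gen_qa]
    simp [fa, fg, fs]
    field_simp) ((spMap φ) z) (by
    intro h
    have h1 : φ (chA 1) ∈ z.asIdeal := h
    have h2 : z.asIdeal = ⊥ := (Ideal.eq_bot_or_top z.asIdeal).resolve_right z.isPrime.ne_top
    rw [h2, Ideal.mem_bot] at h1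
    exact ha h1)
  obtain ⟨ψ, hψ⟩ := exists_lift_point (S.c 3) (spMap φ ≫ S.c 1) z y hy
  have key : ∀ (q q' : Ch 1) (r r' : Ch 3), gen 1 q * gen 3 r = gen 1 q' * gen 3 r' →
      φ q * ψ r = φ q' * ψ r' := fun q q' r r' e => S.transition2 hψ q q' r r' e
  refine ⟨ψ, hψ, ?_, ?_, ?_, ?_⟩
  · have := key (chA 1) 1 (chA 3) 1 (by
      rw [map_one, map_one, gen_qa, gen_qa]
      simp [fa, ht])
    simpa using this
  · have := key 1 (chB 1) (chB 3) 1 (by
      rw [map_one, map_one, gen_qb, gen_qb]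
      simp [fb])
    simpa using this
  · have := key 1 (chC 1) (chC 3) 1 (by
      rw [map_one, map_one, gen_qc, gen_qc]
      simp [fc])
    simpa using this
  · have := key (chA 1) (chD 1) (chD 3) 1 (by
      rw [map_one, gen_qa, gen_qd, gen_qd]
      simp [fa, fd]
      field_simp)
    simpa using this

/-- the rational point -/
noncomputable def Surf.x0 (S : Surf) : Sp ℚ ⟶ S.X :=
  spMap (Ch.lift (i := 1) (0 : ℚ) 0 0 0 (by ring) (by simp [Gf])) ≫ S.c 1

section Line

variable {K : Type} [Field K] [CharZero K] {s : K} (hs : s ^ 2 = 2)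

/-- the first chart of the line -/
noncomputable def lineA : Ch 1 →+* K[X] :=
  Ch.lift (i := 1) X 0 0 (C s * X) (by ring) (by
    have : (C s : K[X]) ^ 2 = 2 := by rw [← C_pow, hs]; rfl
    rw [mul_pow, this]
    simp only [Gf]
    ring)

/-- the second chart of the line -/
noncomputable def lineB : Ch 3 →+* K[X] :=
  Ch.lift (i := 3) X 0 0 (C s) (by ring) (by
    have : (C s : K[X]) ^ 2 = 2 := by rw [← C_pow, hs]; rfl
    rw [this]
    simp only [Gf]
    ring)

theorem lineA_a : lineA hs (chA 1) = X := Ch.lift_qa _ _ _ _ _ _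

theorem lineA_b : lineA hs (chB 1) = 0 := Ch.lift_qb _ _ _ _ _ _

theorem lineA_c : lineA hs (chC 1) = 0 := Ch.lift_qc _ _ _ _ _ _

theorem lineA_d : lineA hs (chD 1) = C s * X := Ch.lift_qd _ _ _ _ _ _

theorem lineB_a : lineB hs (chA 3) = X := Ch.lift_qa _ _ _ _ _ _

theorem lineB_b : lineB hs (chB 3) = 0 := Ch.lift_qb _ _ _ _ _ _

theorem lineB_c : lineB hs (chC 3) = 0 := Ch.lift_qc _ _ _ _ _ _

theorem lineB_d : lineB hs (chD 3) = C s := Ch.lift_qd _ _ _ _ _ _

theorem Surf.line_swap (S : Surf) (K' : Type) [Field K'] [CharZero K'] [Algebra K K'] (t : K')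
    (ht : t ≠ 0) : linePt (K := K) t ≫ spMap (lineA hs) ≫ S.c 1 =
      linePt (K := K) t⁻¹ ≫ spMap (lineB hs) ≫ S.c 3 := by
  rw [linePt, linePt, ← Category.assoc, ← Category.assoc, ← spMap_comp, ← spMap_comp]
  let φ : Ch 1 →+* K' := (aeval t : K[X] →ₐ[K] K').toRingHom.comp (lineA hs)
  let ψ' : Ch 3 →+* K' := (aeval t⁻¹ : K[X] →ₐ[K] K').toRingHom.comp (lineB hs)
  have a1 : φ (chA 1) = t := by
    change aeval t (lineA hs (chA 1)) = t
    rw [lineA_a, aeval_X]
  have a2 : φ (chB 1) = 0 := by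
    change aeval t (lineA hs (chB 1)) = 0
    rw [lineA_b, map_zero]
  have a3 : φ (chC 1) = 0 := by
    change aeval t (lineA hs (chC 1)) = 0
    rw [lineA_c, map_zero]
  have a4 : φ (chD 1) = algebraMap K K' s * t := by
    change aeval t (lineA hs (chD 1)) = _
    rw [lineA_d, map_mul, aeval_X, aeval_C]
  have b1 : ψ' (chA 3) = t⁻¹ := by
    change aeval t⁻¹ (lineB hs (chA 3)) = _
    rw [lineB_a, aeval_X]
  have b2 : ψ' (chB 3) = 0 := by
    change aeval t⁻¹ (lineB hs (chB 3)) = 0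
    rw [lineB_b, map_zero]
  have b3 : ψ' (chC 3) = 0 := by
    change aeval t⁻¹ (lineB hs (chC 3)) = 0
    rw [lineB_c, map_zero]
  have b4 : ψ' (chD 3) = algebraMap K K' s := by
    change aeval t⁻¹ (lineB hs (chD 3)) = _
    rw [lineB_d, aeval_C]
  obtain ⟨ψ, hψ, h1, h2, h3, h4⟩ := S.swap13 φ (by rw [a1]; exact ht)
  have e : ψ = ψ' := by
    apply Ch.hom_ext
    · change ψ (chA 3) = ψ' (chA 3)
      rw [b1, ← a1]
      exact eq_inv_of_mul_eq_one_right h1
    · change ψ (chB 3) = ψ' (chB 3)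
      rw [b2, h2, a2]
    · change ψ (chC 3) = ψ' (chC 3)
      rw [b3, h3, a3]
    · change ψ (chD 3) = ψ' (chD 3)
      rw [b4]
      rw [a1, a4, mul_comm] at h4
      exact mul_right_cancel₀ ht h4
  rw [e] at hψ
  exact hψ

/-- the point with coordinate `0` of the line is the rational point -/
theorem Surf.line_zero (S : Surf) : linePt (K := K) (0 : K) ≫ spMap (lineA hs) ≫ S.c 1 =
    spMap (algebraMap ℚ K) ≫ S.x0 := by
  rw [linePt, Surf.x0, ← Category.assoc, ← Category.assoc, ← spMap_comp, ← spMap_comp]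
  congr 2
  apply Ch.hom_ext
  · change aeval (0 : K) (lineA hs (chA 1)) = algebraMap ℚ K (Ch.lift _ _ _ _ _ _ (chA 1))
    rw [lineA_a, aeval_X, Ch.lift_qa, map_zero]
  · change aeval (0 : K) (lineA hs (chB 1)) = algebraMap ℚ K (Ch.lift _ _ _ _ _ _ (chB 1))
    rw [lineA_b, map_zero, Ch.lift_qb, map_zero]
  · change aeval (0 : K) (lineA hs (chC 1)) = algebraMap ℚ K (Ch.lift _ _ _ _ _ _ (chC 1))
    rw [lineA_c, map_zero, Ch.lift_qc, map_zero]
  · change aeval (0 : K) (lineA hs (chD 1)) = algebraMap ℚ K (Ch.lift _ _ _ _ _ _ (chD 1))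
    rw [lineA_d, map_mul, aeval_X, mul_zero, Ch.lift_qd, map_zero]

/-- the point with coordinate `1` of the line is a different point -/
theorem Surf.line_one_ne (S : Surf) : linePt (K := K) (1 : K) ≫ spMap (lineA hs) ≫ S.c 1 ≠
    spMap (algebraMap ℚ K) ≫ S.x0 := by
  rw [← S.line_zero hs, linePt, linePt, ← Category.assoc, ← Category.assoc, ← spMap_comp,
    ← spMap_comp]
  intro h
  have h1 := spMap_comp_injective (S.c 1) h
  have h2 := congrArg (fun f : Ch 1 →+* K => f (chA 1)) h1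
  have h3 : aeval (1 : K) (lineA hs (chA 1)) = aeval (0 : K) (lineA hs (chA 1)) := h2
  rw [lineA_a, aeval_X, aeval_X] at h3
  exact one_ne_zero h3

end Line

/-- The Brauer classes have the same values at the points of the line. -/
theorem Surf.ev_line (S : Surf) {K : Type} [Field K] [CharZero K] {s : K} (hs : s ^ 2 = 2)
    (α : BrClass S.X) : α.ev K (linePt (K := K) (1 : K) ≫ spMap (lineA hs) ≫ S.c 1) =
      α.ev K (spMap (algebraMap ℚ K) ≫ S.x0) := by
  rw [← S.line_zero hs]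
  exact α.const_on_line K _ _ (fun K' _ _ _ t ht => S.line_swap hs K' t ht) 1 0

/-- there is only one rational point -/
theorem Surf.rat_unique (S : Surf) (P : Sp ℚ ⟶ S.X) : P = S.x0 := by
  by_cases h : P ≫ S.p = P0
  · obtain ⟨i, φ, hi, rfl, ha⟩ := S.exists_chart_over P 0 0 (by rw [h, P0])
    have hM : (fun v : Place => spMap (algebraMap ℚ (Kv v)) ≫ spMap φ ≫ S.c i) ∈ BMset S.X :=
      ratPts_subset_BMset S.X ⟨_, rfl⟩
    obtain ⟨hb, hc⟩ := S.coord_two (𝟙 S.X) hM ((algebraMap ℚ (Kv (some two))).comp φ) (by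
      rw [Category.comp_id, ← Category.assoc, ← spMap_comp])
    have hb' : φ (chB i) = 0 := (map_eq_zero (algebraMap ℚ (Kv (some two)))).1 hb
    have hc' : φ (chC i) = 0 := (map_eq_zero (algebraMap ℚ (Kv (some two)))).1 hc
    have hd := (ch_eqs φ).2
    rw [ha, hb', hc'] at hd
    have hi' : i = 0 ∨ i = 1 := by
      fin_cases i <;> simp_all [tau]
    rcases hi' with rfl | rfl
    · exfalso
      refine sq_ne_two_Kv (algebraMap ℚ (Kv (some two)) (φ (chD 0))) ?_
      rw [← map_pow, hd]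
      simp [Gf]
    · have hd' : φ (chD 1) = 0 := by
        have : φ (chD 1) ^ 2 = 0 := by
          rw [hd]
          simp [Gf]
        exact pow_eq_zero_iff two_ne_zero |>.1 this
      rw [Surf.x0]
      congr 2
      apply Ch.hom_ext
      · rw [Ch.lift_qa]
        exact ha
      · rw [Ch.lift_qb]
        exact hb'
      · rw [Ch.lift_qc]
        exact hc'
      · rw [Ch.lift_qd]
        exact hd'
  · exfalso
    have h1 := S.BMset_fibre (P ≫ S.p) h
    have h2 : (fun v : Place => spMap (algebraMap ℚ (Kv v)) ≫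
        Limits.pullback.lift P (𝟙 _) (by rw [Category.id_comp])) ∈
        BMset (Limits.pullback S.p (P ≫ S.p)) :=
      ratPts_subset_BMset _ ⟨_, rfl⟩
    rw [h1] at h2
    exact h2

/-- the prime 7 -/
def seven : Nat.Primes := ⟨7, by norm_num⟩

theorem exists_sqrt_two_Kv : ∃ s : Kv (some seven), s ^ 2 = 2 :=
  haveI : Fact (Nat.Prime 7) := ⟨by norm_num⟩
  exists_sqrt_two

instance : T1Space (Kv (some seven)) := inferInstanceAs (T1Space ℚ_[((seven : Nat.Primes) : ℕ)])

/-- the surface does not satisfy the conclusion -/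
theorem Surf.not_BMOnly (S : Surf) : ¬ BMOnly S.X := by
  classical
  intro h
  obtain ⟨s, hs⟩ := exists_sqrt_two_Kv
  let M : Adelic S.X := Function.update (fun v => spMap (algebraMap ℚ (Kv v)) ≫ S.x0) (some seven)
    (linePt (K := Kv (some seven)) (1 : Kv (some seven)) ≫ spMap (lineA hs) ≫ S.c 1)
  have hM7 : M (some seven) =
      linePt (K := Kv (some seven)) (1 : Kv (some seven)) ≫ spMap (lineA hs) ≫ S.c 1 :=
    Function.update_self _ _ _
  have hMv : ∀ v, v ≠ some seven → M v = spMap (algebraMap ℚ (Kv v)) ≫ S.x0 := fun v hv =>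
    Function.update_of_ne hv _ _
  have hM : M ∈ BMset S.X := by
    intro α
    have h0 : (fun v : Place => spMap (algebraMap ℚ (Kv v)) ≫ S.x0) ∈ BMset S.X :=
      ratPts_subset_BMset S.X ⟨S.x0, rfl⟩
    obtain ⟨B, hB⟩ := h0 α
    refine ⟨B, fun v => ?_⟩
    by_cases hv : v = some seven
    · subst hv
      rw [hM7, S.ev_line hs α]
      exact hB _
    · rw [hMv v hv]
      exact hB v
  have hcl : M ∉ @closure _ (adTop S.X) (ratPts S.X) :=
    not_mem_closure S.x0 S.rat_unique M (some seven) (by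
      rw [hM7]
      exact S.line_one_ne hs)
  rw [BMOnly] at h
  rw [h] at hcl
  exact hcl hM

end BB37
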